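import Pool.Agent.T9h29.HC.Spec2

set_option autoImplicit false

/-! Project HC (helper29), second round: the high frequencies as an operator (helper51; after helper49). -/

namespace Pool.Agent.T9h51.HC.K2

open Complex Filter Topology MeasureTheory Set
open Pool.Agent.Y969.GP (ff V V1 ht lam PS FR co cr PX mk mB)
open Pool.Agent.N879.PZ (ee HH Wb)
open Pool.Agent.N879.PZ.Khaux (ee_add ee_norm ee_cont cs_int int_mul int_sq int_inv_sq exists_blk norm_sum_sq blk_arith)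
open Pool.Agent.T9h29.HC (Par2 S_KH2)

noncomputable section

/-- consequences of the conditions on the parameters -/
lemma par {T U a : ℝ} {N X : ℕ} (hP : Par2 T U a N) (hX2 : (X : ℝ) ≤ 5 * T ^ 2) (hX1 : 1 ≤ X) :
    1 ≤ Real.log T ∧ 1 ≤ a ∧ U ≤ T ∧ (N : ℝ) ≤ T ∧ 1 + Real.log X ≤ 5 * Real.log T ∧
    (Nat.log 2 X + 1 : ℝ) ≤ 7 * Real.log T ∧ (X : ℝ) ≤ T ^ 4 := by
  obtain ⟨hT, hU1, hU, ha, haT, hN1, hN, hNU⟩ := hP
  have hT0 : 0 < T := by linarith
  have hT1 : 1 ≤ T := by linarith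
  have hL : 1 ≤ Real.log T := by
    rw [Real.le_log_iff_exp_le hT0]
    have := Real.exp_one_lt_d9
    linarith
  have hX4 : (X : ℝ) ≤ T ^ 4 := by
    refine hX2.trans ?_
    have : 5 ≤ T ^ 2 := by nlinarith
    nlinarith [sq_nonneg T]
  have hX0 : (0 : ℝ) < X := by exact_mod_cast hX1
  have hlX : Real.log X ≤ 4 * Real.log T := by
    have := Real.log_le_log hX0 hX4
    rwa [Real.log_pow, Nat.cast_ofNat] at this
  refine ⟨hL, by linarith, hU, hN, by linarith, ?_, hX4⟩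
  have h1 : (2 : ℝ) ^ Nat.log 2 X ≤ X := by exact_mod_cast Nat.pow_log_le_self 2 (by omega)
  have h2 := Real.log_le_log (by positivity) h1
  rw [Real.log_pow] at h2
  have h3 := Real.log_two_gt_d9
  have h4 : (0 : ℝ) ≤ Nat.log 2 X := Nat.cast_nonneg _
  have h5 : (Nat.log 2 X : ℝ) * 0.6931471803 ≤ 4 * Real.log T := by nlinarith
  nlinarith

/-- one block -/
lemma blk {C1 C2 C3 : ℝ} (hC1 : 0 < C1) (hC2 : 0 < C2) (hC3 : 0 < C3)
    (hcrd : ∀ (X : ℕ) (p : ℕ × ℕ) (u : ℝ), 1 ≤ X → 1 ≤ p.1 → 1 ≤ p.2 → 0 < u →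
      |cr X p u| ≤ C1 * (1 + Real.log X) * (√(ht p))⁻¹ * min 1 ((u / ht p) ^ 2) ∧
      |u * deriv (cr X p) u| ≤ C1 * (1 + Real.log X) * (√(ht p))⁻¹ * min 1 ((u / ht p) ^ 2))
    (hlc : ∀ (K : ℕ) (U : ℝ) (S : Finset (ℕ × ℕ)) (b : ℕ × ℕ → ℂ), 1 ≤ K → 1 ≤ U →
      S ⊆ FR K → ∫ c in (0 : ℝ)..U, ‖∑ p ∈ S, b p * ee c p‖ ^ 2 ≤ C2 * (U + K) * ∑ p ∈ S, ‖b p‖ ^ 2)
    (hlt : ∀ (K : ℕ) (a T w : ℝ) (S : Finset (ℕ × ℕ)) (A A' : ℕ × ℕ → ℝ → ℂ),
      1 ≤ K → 1 ≤ T → 0 ≤ a → a ≤ T → 0 ≤ w → S ⊆ FR K →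
      (∀ p ∈ S, ∀ x ∈ Icc a T, HasDerivAt (A p) (A' p x) x) →
      (∀ p ∈ S, ContinuousOn (A' p) (Icc a T)) →
      (∀ p ∈ S, ∀ x ∈ Icc a T, ‖A p x‖ ≤ w) → (∀ p ∈ S, ∫ x in a..T, ‖A' p x‖ ≤ w) →
      (∀ b : ℕ × ℕ → ℂ, ∫ t in a..T, ‖∑ p ∈ S, b p * (A p t * ee t p)‖ ^ 2 ≤
        C3 * ((T + K) * (1 + Real.log K)) * w ^ 2 * ∑ p ∈ S, ‖b p‖ ^ 2) ∧
      ∀ F : ℝ → ℂ, Wb a T F → ∑ p ∈ S, ‖∫ t in a..T, F t * (A p t * ee t p)‖ ^ 2 ≤
        C3 * ((T + K) * (1 + Real.log K)) * w ^ 2 * ∫ t in a..T, ‖F t‖ ^ 2)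
    (hdiff : ∀ (X : ℕ) (p : ℕ × ℕ), p ∈ FR X → ∀ u : ℝ, 0 < u →
      DifferentiableAt ℝ (cr X p) u ∧ DifferentiableAt ℝ (deriv (cr X p)) u)
    {T U a : ℝ} {N X K : ℕ} {F : ℝ → ℂ} (hP : Par2 T U a N) (hX1 : 1 ≤ X)
    (hX2 : (X : ℝ) ≤ 5 * T ^ 2) (hF : Wb a T F) (hNK : N ≤ K) (hK : ((2 * K : ℕ) : ℝ) ≤ T ^ 6)
    (S : Finset (ℕ × ℕ)) (hS : S ⊆ FR X) (hSK : ∀ p ∈ S, (K : ℝ) < ht p ∧ ht p ≤ 2 * K) :
    ∫ c in (0 : ℝ)..U, ‖∑ p ∈ S, (∫ t in a..T, F t * (((cr X p t : ℝ) : ℂ) * ee t p)) * ee c p‖ ^ 2 ≤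
      C2 * C3 * C1 ^ 2 * 1575 * Real.log T ^ 5 * (T * (U / N + 1)) * ∫ t in a..T, ‖F t‖ ^ 2 := by
  obtain ⟨hL, ha1, hUT, hNT, hlX, -, -⟩ := par hP hX2 hX1
  obtain ⟨hT, hU1, hU, ha, haT, hN1, hN, hNU⟩ := hP
  set L := Real.log T with hLd
  have hT0 : 0 < T := by linarith
  have hKn : 1 ≤ K := hN1.trans hNK
  have hK1 : (1 : ℝ) ≤ K := by exact_mod_cast hKn
  have hK0 : (0 : ℝ) < K := by linarith
  have hNK' : (N : ℝ) ≤ K := by exact_mod_cast hNK
  have hN1' : (1 : ℝ) ≤ N := by exact_mod_cast hN1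
  have hX1' : (1 : ℝ) ≤ X := by exact_mod_cast hX1
  have hlX0 : 0 ≤ Real.log X := Real.log_nonneg hX1'
  set m := min 1 ((T / K) ^ 2) with hm
  have hm0 : 0 ≤ m := le_min zero_le_one (by positivity)
  set B := C1 * (1 + Real.log X) * (√(K : ℝ))⁻¹ * m with hB
  have hB0 : 0 ≤ B := by positivity
  have hmem : ∀ p ∈ S, 1 ≤ p.1 ∧ 1 ≤ p.2 := fun p hp => by
    have := Pool.Agent.Y545.GP.mem_FR.1 (hS hp)
    exact ⟨this.1, this.2.1⟩
  have hbd : ∀ p ∈ S, ∀ x ∈ Icc a T,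
      C1 * (1 + Real.log X) * (√(ht p))⁻¹ * min 1 ((x / ht p) ^ 2) ≤ B := by
    intro p hp x hx
    have h1 := (hSK p hp).1
    have hx0 : 0 ≤ x := by linarith [hx.1]
    rw [hB, hm]
    have h2 : (√(ht p))⁻¹ ≤ (√(K : ℝ))⁻¹ :=
      inv_anti₀ (Real.sqrt_pos.2 hK0) (Real.sqrt_le_sqrt h1.le)
    have h3 : min 1 ((x / ht p) ^ 2) ≤ min 1 ((T / K) ^ 2) := by
      refine min_le_min le_rfl (pow_le_pow_left₀ (div_nonneg hx0 (by linarith)) ?_ 2)
      exact div_le_div₀ hT0.le hx.2 hK0 h1.le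
    have h4 : 0 ≤ min 1 ((x / ht p) ^ 2) := le_min zero_le_one (by positivity)
    gcongr
  have hSF : S ⊆ FR (2 * K) := by
    intro p hp
    have h1 := Pool.Agent.Y545.GP.mem_FR.1 (hS hp)
    have h2 := (hSK p hp).2
    rw [Pool.Agent.Y545.GP.mem_FR]
    refine ⟨h1.1, h1.2.1, ?_, h1.2.2.2⟩
    unfold ht at h2
    exact_mod_cast h2
  have hw := (hlt (2 * K) a T (B * L) S (fun p t => ((cr X p t : ℝ) : ℂ))
    (fun p t => ((deriv (cr X p) t : ℝ) : ℂ)) (by omega) (by linarith) (by linarith) haT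
    (by positivity) hSF ?_ ?_ ?_ ?_).2 F hF
  · have h1 := hlc (2 * K) U S (fun p => ∫ t in a..T, F t * (((cr X p t : ℝ) : ℂ) * ee t p))
      (by omega) hU1 hSF
    refine h1.trans ?_
    have hP0 : 0 ≤ ∫ t in a..T, ‖F t‖ ^ 2 :=
      intervalIntegral.integral_nonneg haT fun t _ => by positivity
    set P := ∫ t in a..T, ‖F t‖ ^ 2 with hPd
    have h2K : ((2 * K : ℕ) : ℝ) = 2 * K := by push_cast; ring
    have hl2K : 1 + Real.log ((2 * K : ℕ) : ℝ) ≤ 7 * L := by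
      have h3 := Real.log_le_log (by rw [h2K]; positivity) hK
      rw [Real.log_pow] at h3
      push_cast at h3 ⊢
      linarith
    have hl2K0 : 0 ≤ Real.log ((2 * K : ℕ) : ℝ) := Real.log_nonneg (by rw [h2K]; linarith)
    have har := blk_arith (T := T) (U := U) (K := K) (N := N) hN1' hNK' hU1 hUT
    rw [← hm] at har
    have hB2 : (B * L) ^ 2 = C1 ^ 2 * (1 + Real.log X) ^ 2 * L ^ 2 * (m ^ 2 / K) := by
      rw [hB, mul_pow, mul_pow, mul_pow, mul_pow, inv_pow, Real.sq_sqrt hK0.le]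
      field_simp
    calc C2 * (U + ((2 * K : ℕ) : ℝ)) * ∑ p ∈ S,
          ‖∫ t in a..T, F t * (((cr X p t : ℝ) : ℂ) * ee t p)‖ ^ 2
        ≤ C2 * (U + ((2 * K : ℕ) : ℝ)) * (C3 * ((T + ((2 * K : ℕ) : ℝ)) *
          (1 + Real.log ((2 * K : ℕ) : ℝ))) * (B * L) ^ 2 * P) := by gcongr
      _ = C2 * C3 * C1 ^ 2 * (1 + Real.log X) ^ 2 * (1 + Real.log ((2 * K : ℕ) : ℝ)) * L ^ 2 *
          ((U + 2 * K) * (T + 2 * K) * m ^ 2 / K) * P := by
          rw [hB2, h2K]
          ring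
      _ ≤ C2 * C3 * C1 ^ 2 * (5 * L) ^ 2 * (7 * L) * L ^ 2 * (9 * (T * (U / N + 1))) * P := by
          gcongr
      _ = _ := by ring
  · intro p hp x hx
    exact (hdiff X p (hS hp) x (by linarith [hx.1])).1.hasDerivAt.ofReal_comp
  · intro p hp
    refine continuous_ofReal.comp_continuousOn ?_
    intro x hx
    exact (hdiff X p (hS hp) x (by linarith [hx.1])).2.continuousAt.continuousWithinAt
  · intro p hp x hx
    have hx0 : 0 < x := by linarith [hx.1]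
    rw [Complex.norm_real, Real.norm_eq_abs]
    refine ((hcrd X p x hX1 (hmem p hp).1 (hmem p hp).2 hx0).1.trans (hbd p hp x hx)).trans ?_
    nlinarith
  · intro p hp
    have h5 : ∀ x ∈ Icc a T, ‖((deriv (cr X p) x : ℝ) : ℂ)‖ ≤ B * x⁻¹ := by
      intro x hx
      have hx0 : 0 < x := by linarith [hx.1]
      have h7 := (hcrd X p x hX1 (hmem p hp).1 (hmem p hp).2 hx0).2.trans (hbd p hp x hx)
      rw [abs_mul, abs_of_pos hx0] at h7
      rw [Complex.norm_real, Real.norm_eq_abs, ← div_eq_mul_inv, le_div_iff₀ hx0]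
      linarith
    have hcont : ContinuousOn (fun x => ‖((deriv (cr X p) x : ℝ) : ℂ)‖) (Icc a T) := by
      refine (continuous_ofReal.comp_continuousOn ?_).norm
      intro x hx
      exact (hdiff X p (hS hp) x (by linarith [hx.1])).2.continuousAt.continuousWithinAt
    have hinv : ContinuousOn (fun x : ℝ => x⁻¹) (Icc a T) :=
      continuousOn_inv₀.mono fun x hx => by
        simp only [mem_compl_iff, mem_singleton_iff]
        linarith [hx.1]
    calc ∫ x in a..T, ‖((deriv (cr X p) x : ℝ) : ℂ)‖ ≤ ∫ x in a..T, B * x⁻¹ := by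
          refine intervalIntegral.integral_mono_on haT ?_ ?_ h5
          · exact hcont.intervalIntegrable_of_Icc haT
          · exact (hinv.const_smul B).intervalIntegrable_of_Icc haT
      _ = B * Real.log (T / a) := by
          rw [intervalIntegral.integral_const_mul, integral_inv_of_pos (by linarith) hT0]
      _ ≤ B * L := by
          refine mul_le_mul_of_nonneg_left ?_ hB0
          exact Real.log_le_log (by positivity) (div_le_self hT0.le ha1)

/-- the error from freezing the amplitudes -/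
lemma err {C3 C4 : ℝ} (hC3 : 0 < C3) (hC4 : 0 < C4)
    (hlt : ∀ (K : ℕ) (a T w : ℝ) (S : Finset (ℕ × ℕ)) (A A' : ℕ × ℕ → ℝ → ℂ),
      1 ≤ K → 1 ≤ T → 0 ≤ a → a ≤ T → 0 ≤ w → S ⊆ FR K →
      (∀ p ∈ S, ∀ x ∈ Icc a T, HasDerivAt (A p) (A' p x) x) →
      (∀ p ∈ S, ContinuousOn (A' p) (Icc a T)) →
      (∀ p ∈ S, ∀ x ∈ Icc a T, ‖A p x‖ ≤ w) → (∀ p ∈ S, ∫ x in a..T, ‖A' p x‖ ≤ w) →
      (∀ b : ℕ × ℕ → ℂ, ∫ t in a..T, ‖∑ p ∈ S, b p * (A p t * ee t p)‖ ^ 2 ≤
        C3 * ((T + K) * (1 + Real.log K)) * w ^ 2 * ∑ p ∈ S, ‖b p‖ ^ 2) ∧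
      ∀ F : ℝ → ℂ, Wb a T F → ∑ p ∈ S, ‖∫ t in a..T, F t * (A p t * ee t p)‖ ^ 2 ≤
        C3 * ((T + K) * (1 + Real.log K)) * w ^ 2 * ∫ t in a..T, ‖F t‖ ^ 2)
    (hcr : ∀ (X : ℕ) (p : ℕ × ℕ), p ∈ FR X → ∀ u : ℝ, 0 < u →
      DifferentiableAt ℝ (cr X p) u ∧ DifferentiableAt ℝ (deriv (cr X p)) u ∧
      ContinuousAt (deriv (deriv (cr X p))) u ∧
      |cr X p u| ≤ C4 * (1 + Real.log X) * (√(ht p))⁻¹ ∧
      |u * deriv (cr X p) u| ≤ C4 * (1 + Real.log X) * (√(ht p))⁻¹ ∧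
      |u ^ 2 * deriv (deriv (cr X p)) u| ≤ C4 * (1 + Real.log X) * (√(ht p))⁻¹)
    {T U a : ℝ} {N X : ℕ} (hP : Par2 T U a N) (hX1 : 1 ≤ X)
    (hX2 : (X : ℝ) ≤ 5 * T ^ 2) (S : Finset (ℕ × ℕ)) (hS : S ⊆ FR X) {c : ℝ} (hc0 : 0 ≤ c)
    (hcU : c ≤ U) :
    ∫ t in a..T, ‖∑ p ∈ S, ((((√(ht p))⁻¹ : ℝ) : ℂ) * ee c p) *
        (((√(ht p) * (cr X p (t + c) - cr X p t) : ℝ) : ℂ) * ee t p)‖ ^ 2 ≤
      C3 * C4 ^ 2 * 18750 * Real.log T ^ 5 * (T ^ 2 * U ^ 2 / a ^ 2) := by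
  obtain ⟨hL, ha1, hUT, hNT, hlX, -, -⟩ := par hP hX2 hX1
  obtain ⟨hT, hU1, hU, ha, haT, hN1, hN, hNU⟩ := hP
  set L := Real.log T with hLd
  have hT0 : 0 < T := by linarith
  have ha0 : 0 < a := by linarith
  have hX1' : (1 : ℝ) ≤ X := by exact_mod_cast hX1
  have hlX0 : 0 ≤ Real.log X := Real.log_nonneg hX1'
  set w := C4 * (1 + Real.log X) * U / a with hw
  have hw0 : 0 ≤ w := by positivity
  have hht : ∀ p ∈ S, 0 < ht p := by
    intro p hp
    have := Pool.Agent.Y545.GP.mem_FR.1 (hS hp)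
    exact Pool.Agent.Y545.GP.ht_pos this.1 this.2.1
  have hsq : ∀ p ∈ S, √(ht p) * (√(ht p))⁻¹ = 1 := fun p hp =>
    mul_inv_cancel₀ (Real.sqrt_pos.2 (hht p hp)).ne'
  have key := (hlt X a T w S (fun p t => ((√(ht p) * (cr X p (t + c) - cr X p t) : ℝ) : ℂ))
    (fun p t => ((√(ht p) * (deriv (cr X p) (t + c) - deriv (cr X p) t) : ℝ) : ℂ)) hX1
    (by linarith) ha0.le haT hw0 hS ?_ ?_ ?_ ?_).1 (fun p => (((√(ht p))⁻¹ : ℝ) : ℂ) * ee c p)
  · refine key.trans ?_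
    have h5 : ∑ p ∈ S, ‖(((√(ht p))⁻¹ : ℝ) : ℂ) * ee c p‖ ^ 2 ≤ (1 + Real.log X) ^ 2 := by
      refine le_trans ?_ (Pool.Agent.N879.GD.sum_FR_le X)
      refine le_trans (Finset.sum_le_sum_of_subset_of_nonneg hS fun p _ _ => by positivity) ?_
      refine Finset.sum_le_sum fun p hp => le_of_eq ?_
      have h6 := Pool.Agent.Y545.GP.mem_FR.1 hp
      have h7 := Pool.Agent.Y545.GP.ht_pos h6.1 h6.2.1
      rw [norm_mul, ee_norm, mul_one, Complex.norm_real, Real.norm_eq_abs, sq_abs, inv_pow,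
        Real.sq_sqrt h7.le]
    have hTX : T + X ≤ 6 * T ^ 2 := by nlinarith
    have hw2 : w ^ 2 = C4 ^ 2 * (1 + Real.log X) ^ 2 * (U ^ 2 / a ^ 2) := by
      rw [hw]
      field_simp
    calc C3 * ((T + X) * (1 + Real.log X)) * w ^ 2 *
          ∑ p ∈ S, ‖(((√(ht p))⁻¹ : ℝ) : ℂ) * ee c p‖ ^ 2
        ≤ C3 * ((6 * T ^ 2) * (1 + Real.log X)) * w ^ 2 * (1 + Real.log X) ^ 2 := by gcongr
      _ = C3 * C4 ^ 2 * 6 * (1 + Real.log X) ^ 5 * (T ^ 2 * U ^ 2 / a ^ 2) := by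
          rw [hw2]
          ring
      _ ≤ C3 * C4 ^ 2 * 6 * (5 * L) ^ 5 * (T ^ 2 * U ^ 2 / a ^ 2) := by gcongr
      _ = _ := by ring
  · intro p hp x hx
    have hx0 : 0 < x := by linarith [hx.1]
    have h6 := (hcr X p (hS hp) (x + c) (by linarith)).1.hasDerivAt.comp_add_const x c
    have h7 := (hcr X p (hS hp) x hx0).1.hasDerivAt
    exact ((h6.sub h7).const_mul _).ofReal_comp
  · intro p hp
    refine continuous_ofReal.comp_continuousOn ?_
    refine continuousOn_const.mul (ContinuousOn.sub ?_ ?_)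
    · intro x hx
      have h6 : ContinuousAt (deriv (cr X p)) (x + c) :=
        (hcr X p (hS hp) (x + c) (by linarith [hx.1])).2.1.continuousAt
      exact (ContinuousAt.comp' (f := fun x : ℝ => x + c) h6 (by fun_prop)).continuousWithinAt
    · intro x hx
      exact (hcr X p (hS hp) x (by linarith [hx.1])).2.1.continuousAt.continuousWithinAt
  · intro p hp x hx
    have hs0 : 0 < √(ht p) := Real.sqrt_pos.2 (hht p hp)
    have h6 := Convex.norm_image_sub_le_of_norm_deriv_le (f := cr X p) (s := Ici a)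
      (C := C4 * (1 + Real.log X) * (√(ht p))⁻¹ / a) (x := x) (y := x + c)
      (fun s hs => (hcr X p (hS hp) s (lt_of_lt_of_le ha0 hs)).1) (fun s hs => by
        have hs0' : 0 < s := lt_of_lt_of_le ha0 hs
        have h7 := (hcr X p (hS hp) s hs0').2.2.2.2.1
        rw [abs_mul, abs_of_pos hs0'] at h7
        rw [Real.norm_eq_abs, le_div_iff₀ ha0]
        have hs1 : a ≤ s := hs
        nlinarith [abs_nonneg (deriv (cr X p) s)]) (convex_Ici a) hx.1
      (by change a ≤ x + c; linarith [hx.1])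
    rw [add_sub_cancel_left, Real.norm_eq_abs, Real.norm_eq_abs, abs_of_nonneg hc0] at h6
    rw [Complex.norm_real, Real.norm_eq_abs, abs_mul, abs_of_pos hs0]
    calc √(ht p) * |cr X p (x + c) - cr X p x|
        ≤ √(ht p) * (C4 * (1 + Real.log X) * (√(ht p))⁻¹ / a * c) := by gcongr
      _ = √(ht p) * (√(ht p))⁻¹ * (C4 * (1 + Real.log X) * c / a) := by ring
      _ = C4 * (1 + Real.log X) * c / a := by rw [hsq p hp, one_mul]
      _ ≤ w := by rw [hw]; gcongr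
  · intro p hp
    have hs0 : 0 < √(ht p) := Real.sqrt_pos.2 (hht p hp)
    have h5 : ∀ x ∈ Icc a T, ‖((√(ht p) * (deriv (cr X p) (x + c) - deriv (cr X p) x) : ℝ) : ℂ)‖ ≤
        C4 * (1 + Real.log X) * c * (x ^ 2)⁻¹ := by
      intro x hx
      have hx0 : 0 < x := by linarith [hx.1]
      have h6 := Convex.norm_image_sub_le_of_norm_deriv_le (f := deriv (cr X p)) (s := Ici x)
        (C := C4 * (1 + Real.log X) * (√(ht p))⁻¹ / x ^ 2) (x := x) (y := x + c)
        (fun s hs => (hcr X p (hS hp) s (lt_of_lt_of_le hx0 hs)).2.1) (fun s hs => by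
          have hs0' : 0 < s := lt_of_lt_of_le hx0 hs
          have h7 := (hcr X p (hS hp) s hs0').2.2.2.2.2
          rw [abs_mul, abs_of_pos (by positivity : (0 : ℝ) < s ^ 2)] at h7
          rw [Real.norm_eq_abs, le_div_iff₀ (by positivity)]
          have hs1 : x ≤ s := hs
          have hs2 : x ^ 2 ≤ s ^ 2 := pow_le_pow_left₀ hx0.le hs1 2
          nlinarith [abs_nonneg (deriv (deriv (cr X p)) s)]) (convex_Ici x) self_mem_Ici
        (by change x ≤ x + c; linarith)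
      rw [add_sub_cancel_left, Real.norm_eq_abs, Real.norm_eq_abs, abs_of_nonneg hc0] at h6
      rw [Complex.norm_real, Real.norm_eq_abs, abs_mul, abs_of_pos hs0]
      calc √(ht p) * |deriv (cr X p) (x + c) - deriv (cr X p) x|
          ≤ √(ht p) * (C4 * (1 + Real.log X) * (√(ht p))⁻¹ / x ^ 2 * c) := by gcongr
        _ = √(ht p) * (√(ht p))⁻¹ * (C4 * (1 + Real.log X) * c * (x ^ 2)⁻¹) := by ring
        _ = C4 * (1 + Real.log X) * c * (x ^ 2)⁻¹ := by rw [hsq p hp, one_mul]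
    have hcont : ContinuousOn (fun x =>
        ‖((√(ht p) * (deriv (cr X p) (x + c) - deriv (cr X p) x) : ℝ) : ℂ)‖) (Icc a T) := by
      refine (continuous_ofReal.comp_continuousOn ?_).norm
      refine continuousOn_const.mul (ContinuousOn.sub ?_ ?_)
      · intro x hx
        have h6 : ContinuousAt (deriv (cr X p)) (x + c) :=
          (hcr X p (hS hp) (x + c) (by linarith [hx.1])).2.1.continuousAt
        exact (ContinuousAt.comp' (f := fun x : ℝ => x + c) h6 (by fun_prop)).continuousWithinAt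
      · intro x hx
        exact (hcr X p (hS hp) x (by linarith [hx.1])).2.1.continuousAt.continuousWithinAt
    have hinv : ContinuousOn (fun x : ℝ => (x ^ 2)⁻¹) (Icc a T) := by
      refine ContinuousOn.inv₀ (by fun_prop) fun x hx => pow_ne_zero 2 ?_
      linarith [hx.1]
    calc ∫ x in a..T, ‖((√(ht p) * (deriv (cr X p) (x + c) - deriv (cr X p) x) : ℝ) : ℂ)‖
        ≤ ∫ x in a..T, C4 * (1 + Real.log X) * c * (x ^ 2)⁻¹ := by
          refine intervalIntegral.integral_mono_on haT ?_ ?_ h5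
          · exact hcont.intervalIntegrable_of_Icc haT
          · exact (hinv.const_smul (C4 * (1 + Real.log X) * c)).intervalIntegrable_of_Icc haT
      _ = C4 * (1 + Real.log X) * c * ∫ x in a..T, (x ^ 2)⁻¹ := by
          rw [intervalIntegral.integral_const_mul]
      _ ≤ C4 * (1 + Real.log X) * U * a⁻¹ := by
          have h8 := int_inv_sq ha0 haT
          have h9 : 0 ≤ ∫ x in a..T, (x ^ 2)⁻¹ :=
            intervalIntegral.integral_nonneg haT fun t _ => by positivity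
          gcongr
      _ = w := by rw [hw]; ring

theorem kh2 : S_KH2 := by
  classical
  obtain ⟨C1, hC1, hcrd⟩ := Pool.Agent.N879.PZ.t_CRD
  obtain ⟨C2, hC2, hlc⟩ := Pool.Agent.N879.PZ.t_LC
  obtain ⟨C3, hC3, hlt⟩ := Pool.Agent.N879.PZ.t_LT
  obtain ⟨-, -, C4, hC4, hcr⟩ := Pool.Agent.Y545.GP.t_CR Pool.Agent.Y587.GP.t_V
  refine ⟨2 * 49 * (C2 * C3 * C1 ^ 2 * 1575) + 8 * (C3 * C4 ^ 2 * 18750), 7, by positivity, ?_⟩
  intro T U a N X F hP hXlo hXhi hF
  have hP' := hP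
  have hX1 : 1 ≤ X := by
    have h4 : (1 : ℝ) ≤ X := by nlinarith [hP.1]
    exact_mod_cast h4
  obtain ⟨hL, ha1, hUT, hNT, hlX, hr, hX4⟩ := par hP hXhi hX1
  obtain ⟨hT, hU1, hU, ha, haT, hN1, hN, hNU⟩ := hP
  set L := Real.log T with hLd
  have hT0 : 0 < T := by linarith
  have ha0 : 0 < a := by linarith
  have hU0 : 0 ≤ U := by linarith
  set S := (FR X).filter (fun p => (N : ℝ) < ht p) with hS
  have hSX : S ⊆ FR X := Finset.filter_subset _ _
  set P := ∫ t in a..T, ‖F t‖ ^ 2 with hPd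
  have hP0 : 0 ≤ P := intervalIntegral.integral_nonneg haT fun t _ => by positivity
  set z : ℕ × ℕ → ℂ := fun p => ∫ t in a..T, F t * (((cr X p t : ℝ) : ℂ) * ee t p) with hz
  set Er := C3 * C4 ^ 2 * 18750 * L ^ 5 * (T ^ 2 * U ^ 2 / a ^ 2) with hEr
  have hEr0 : 0 ≤ Er := by positivity
  have hcrc : ∀ p ∈ S, ∀ b : ℝ, 0 ≤ b → ContinuousOn (fun t => cr X p (t + b)) (Icc a T) := by
    intro p hp b hb x hx
    have h6 : ContinuousAt (cr X p) (x + b) :=
      (hcr X p (hSX hp) (x + b) (by linarith [hx.1])).1.continuousAt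
    exact (ContinuousAt.comp' (f := fun x : ℝ => x + b) h6 (by fun_prop)).continuousWithinAt
  -- the pointwise bound
  have hpt : ∀ c ∈ Icc 0 U, ‖∫ t in a..T, F t * HH N X (t + c)‖ ^ 2 ≤
      2 * ‖∑ p ∈ S, z p * ee c p‖ ^ 2 + 2 * (P * Er) := by
    intro c hc
    set E : ℝ → ℂ := fun t => ∑ p ∈ S, ((((√(ht p))⁻¹ : ℝ) : ℂ) * ee c p) *
        (((√(ht p) * (cr X p (t + c) - cr X p t) : ℝ) : ℂ) * ee t p) with hE
    have hEc : ContinuousOn E (Icc a T) := by
      refine continuousOn_finsetSum _ fun p hp => ?_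
      refine continuousOn_const.mul (ContinuousOn.mul ?_ (ee_cont p).continuousOn)
      refine continuous_ofReal.comp_continuousOn ?_
      refine continuousOn_const.mul (ContinuousOn.sub (hcrc p hp c hc.1) ?_)
      have := hcrc p hp 0 le_rfl
      simpa using this
    have hGc : ∀ p ∈ S, ContinuousOn (fun t => ((cr X p t : ℝ) : ℂ) * ee t p) (Icc a T) := by
      intro p hp
      refine ContinuousOn.mul ?_ (ee_cont p).continuousOn
      refine continuous_ofReal.comp_continuousOn ?_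
      have := hcrc p hp 0 le_rfl
      simpa using this
    have h4 : ∀ t, HH N X (t + c) = (∑ p ∈ S, (((cr X p t : ℝ) : ℂ) * ee t p) * ee c p) + E t := by
      intro t
      rw [hE]
      simp only
      rw [← Finset.sum_add_distrib]
      unfold HH
      refine Finset.sum_congr rfl fun p hp => ?_
      have h5 := Pool.Agent.Y545.GP.mem_FR.1 (hSX hp)
      have h6 := Real.sqrt_pos.2 (Pool.Agent.Y545.GP.ht_pos h5.1 h5.2.1)
      have h7 : ((√(ht p) : ℝ) : ℂ) ≠ 0 := by exact_mod_cast h6.ne'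
      rw [ee_add]
      push_cast
      field_simp
      ring
    have hFG : ∀ p ∈ S, IntervalIntegrable (fun t => F t * (((cr X p t : ℝ) : ℂ) * ee t p) * ee c p)
        volume a T := fun p hp => (int_mul haT hF (hGc p hp)).mul_const _
    have h5 : ∫ t in a..T, F t * HH N X (t + c) =
        (∑ p ∈ S, z p * ee c p) + ∫ t in a..T, F t * E t := by
      have e1 : ∀ t, F t * HH N X (t + c) =
          (∑ p ∈ S, F t * (((cr X p t : ℝ) : ℂ) * ee t p) * ee c p) + F t * E t := by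
        intro t
        rw [h4, mul_add, Finset.mul_sum]
        congr 1
        refine Finset.sum_congr rfl fun p _ => ?_
        ring
      simp only [e1]
      have hsum : IntervalIntegrable (fun t => ∑ p ∈ S, F t * (((cr X p t : ℝ) : ℂ) * ee t p) *
          ee c p) volume a T := by
        have e2 : (fun t => ∑ p ∈ S, F t * (((cr X p t : ℝ) : ℂ) * ee t p) * ee c p) =
            ∑ p ∈ S, fun t => F t * (((cr X p t : ℝ) : ℂ) * ee t p) * ee c p := by
          funext t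
          rw [Finset.sum_apply]
        rw [e2]
        exact IntervalIntegrable.sum S hFG
      rw [intervalIntegral.integral_add hsum (int_mul haT hF hEc),
        intervalIntegral.integral_finset_sum hFG]
      congr 1
      refine Finset.sum_congr rfl fun p _ => ?_
      rw [intervalIntegral.integral_mul_const]
    have h6 : ‖∫ t in a..T, F t * E t‖ ^ 2 ≤ P * Er := by
      have hE2 : IntervalIntegrable (fun t => ‖E t‖ ^ 2) volume a T :=
        (hEc.norm.pow 2).intervalIntegrable_of_Icc haT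
      have hFE : IntervalIntegrable (fun t => ‖F t‖ * ‖E t‖) volume a T := by
        have := (int_mul haT hF hEc).norm
        simpa only [norm_mul] using this
      refine (cs_int haT (int_sq haT hF) hE2 hFE).trans ?_
      refine mul_le_mul_of_nonneg_left ?_ hP0
      exact err hC3 hC4 hlt hcr hP' hX1 hXhi S hSX hc.1 hc.2
    rw [h5]
    set x1 := ∑ p ∈ S, z p * ee c p
    set x2 := ∫ t in a..T, F t * E t
    have h7 : ‖x1 + x2‖ ^ 2 ≤ 2 * ‖x1‖ ^ 2 + 2 * ‖x2‖ ^ 2 := by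
      have h8 := norm_add_le x1 x2
      have h9 := pow_le_pow_left₀ (norm_nonneg _) h8 2
      nlinarith [sq_nonneg (‖x1‖ - ‖x2‖)]
    linarith
  -- the blocks
  set r := Nat.log 2 X + 1 with hrd
  have hex : ∀ p ∈ S, ∃ i < r, N * 2 ^ i < p.1 * p.2 ∧ p.1 * p.2 ≤ N * 2 ^ (i + 1) := by
    intro p hp
    rw [hS, Finset.mem_filter] at hp
    have h4 := Pool.Agent.Y545.GP.mem_FR.1 hp.1
    refine exists_blk r ?_ ?_
    · have h5 := Nat.lt_pow_succ_log_self (b := 2) (by norm_num) X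
      have h6 : 2 ^ r ≤ N * 2 ^ r := Nat.le_mul_of_pos_left _ hN1
      have h7 : 2 ^ (Nat.log 2 X).succ = 2 ^ r := rfl
      have h8 := h4.2.2.1
      omega
    · have h5 := hp.2
      unfold ht at h5
      exact_mod_cast h5
  have hind : ∃ ind : ℕ × ℕ → ℕ, ∀ p ∈ S, ind p < r ∧ N * 2 ^ (ind p) < p.1 * p.2 ∧
      p.1 * p.2 ≤ N * 2 ^ (ind p + 1) := by
    refine ⟨fun p => if h : p ∈ S then (hex p h).choose else 0, fun p hp => ?_⟩
    simp only [hp, dif_pos]
    exact (hex p hp).choose_spec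
  obtain ⟨ind, hind⟩ := hind
  have hlow : ∫ c in (0 : ℝ)..U, ‖∑ p ∈ S, z p * ee c p‖ ^ 2 ≤
      49 * L ^ 2 * (C2 * C3 * C1 ^ 2 * 1575 * L ^ 5 * (T * (U / N + 1)) * P) := by
    set Bd := C2 * C3 * C1 ^ 2 * 1575 * L ^ 5 * (T * (U / N + 1)) * P with hBd
    have hN0 : (0 : ℝ) < N := by exact_mod_cast hN1
    have hBd0 : 0 ≤ Bd := by positivity
    have h4 : ∀ c : ℝ, ‖∑ p ∈ S, z p * ee c p‖ ^ 2 ≤
        r * ∑ i ∈ Finset.range r, ‖∑ p ∈ S.filter (fun p => ind p = i), z p * ee c p‖ ^ 2 := by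
      intro c
      rw [← Finset.sum_fiberwise_of_maps_to (s := S) (t := Finset.range r) (g := ind)
        (fun p hp => Finset.mem_range.2 (hind p hp).1)]
      have := norm_sum_sq (Finset.range r)
        (fun i => ∑ p ∈ S.filter (fun p => ind p = i), z p * ee c p)
      rwa [Finset.card_range] at this
    have hc1 : ∀ S' : Finset (ℕ × ℕ), Continuous fun c => ‖∑ p ∈ S', z p * ee c p‖ ^ 2 := by
      intro S'
      refine (Continuous.norm ?_).pow 2
      exact continuous_finset_sum _ fun p _ => continuous_const.mul (ee_cont p)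
    have h5 : ∀ i ∈ Finset.range r, ∫ c in (0 : ℝ)..U,
        ‖∑ p ∈ S.filter (fun p => ind p = i), z p * ee c p‖ ^ 2 ≤ Bd := by
      intro i hi
      have hi' : i ≤ Nat.log 2 X := by
        have := Finset.mem_range.1 hi
        omega
      have hNK : N ≤ N * 2 ^ i := Nat.le_mul_of_pos_right _ (by positivity)
      refine blk hC1 hC2 hC3 hcrd hlc hlt (fun X p hp u hu => ⟨(hcr X p hp u hu).1,
        (hcr X p hp u hu).2.1⟩) hP' hX1 hXhi hF (K := N * 2 ^ i) hNK ?_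
        (S.filter (fun p => ind p = i)) ((Finset.filter_subset _ _).trans hSX) ?_
      · have h6 : 2 ^ i ≤ X := (Nat.pow_le_pow_right (by norm_num) hi').trans
          (Nat.pow_log_le_self 2 (by omega))
        have h7 : ((2 ^ i : ℕ) : ℝ) ≤ T ^ 4 := (by exact_mod_cast h6 : ((2 ^ i : ℕ) : ℝ) ≤ X).trans hX4
        calc ((2 * (N * 2 ^ i) : ℕ) : ℝ) = 2 * (N * ((2 ^ i : ℕ) : ℝ)) := by push_cast; ring
          _ ≤ T * (T * T ^ 4) := by
              gcongr
              linarith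
          _ = T ^ 6 := by ring
      · intro p hp
        rw [Finset.mem_filter] at hp
        obtain ⟨-, h6, h7⟩ := hind p hp.1
        rw [hp.2] at h6 h7
        unfold ht
        constructor
        · exact_mod_cast h6
        · have h8 : p.1 * p.2 ≤ 2 * (N * 2 ^ i) := by
            rw [pow_succ] at h7
            linarith
          exact_mod_cast h8
    calc ∫ c in (0 : ℝ)..U, ‖∑ p ∈ S, z p * ee c p‖ ^ 2
        ≤ ∫ c in (0 : ℝ)..U, r * ∑ i ∈ Finset.range r,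
            ‖∑ p ∈ S.filter (fun p => ind p = i), z p * ee c p‖ ^ 2 := by
          refine intervalIntegral.integral_mono_on hU0 ?_ ?_ fun c _ => h4 c
          · exact (hc1 S).intervalIntegrable _ _
          · exact (continuous_const.mul (continuous_finset_sum _ fun i _ => hc1 _)).intervalIntegrable _ _
      _ = r * ∑ i ∈ Finset.range r, ∫ c in (0 : ℝ)..U,
            ‖∑ p ∈ S.filter (fun p => ind p = i), z p * ee c p‖ ^ 2 := by
          rw [intervalIntegral.integral_const_mul, intervalIntegral.integral_finset_sum]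
          intro i _
          exact (hc1 _).intervalIntegrable _ _
      _ ≤ r * ∑ i ∈ Finset.range r, Bd := by
          gcongr with i hi
          exact h5 i hi
      _ = (r : ℝ) ^ 2 * Bd := by
          rw [Finset.sum_const, Finset.card_range, nsmul_eq_mul]
          ring
      _ ≤ (7 * L) ^ 2 * Bd := by
          gcongr
          rw [hrd]
          push_cast
          exact hr
      _ = _ := by ring
  -- the error
  have hUa : U * (T ^ 2 * U ^ 2 / a ^ 2) ≤ 4 * U ^ 3 := by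
    have h7 : U * (T ^ 2 * U ^ 2 / a ^ 2) = U ^ 3 * T ^ 2 / a ^ 2 := by ring
    rw [h7, div_le_iff₀ (by positivity)]
    have h8 : T ^ 2 ≤ 4 * a ^ 2 := by nlinarith
    have h9 : 0 ≤ U ^ 3 := by positivity
    nlinarith [mul_le_mul_of_nonneg_left h8 h9]
  have hN0 : (0 : ℝ) < N := by exact_mod_cast hN1
  have hfin : 2 * (49 * L ^ 2 * (C2 * C3 * C1 ^ 2 * 1575 * L ^ 5 * (T * (U / N + 1)) * P)) +
      U * (2 * (P * Er)) ≤ (2 * 49 * (C2 * C3 * C1 ^ 2 * 1575) + 8 * (C3 * C4 ^ 2 * 18750)) * L ^ 7 *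
        (T * (U / N + 1) + U ^ 3) * P := by
    obtain ⟨R, hR⟩ : ∃ R : ℝ, R = T * (U / N + 1) := ⟨_, rfl⟩
    have hR0 : 0 ≤ R := by rw [hR]; positivity
    have hU30 : 0 ≤ U ^ 3 := by positivity
    rw [← hR]
    have h4 : U * (2 * (P * Er)) ≤ 8 * (C3 * C4 ^ 2 * 18750) * L ^ 7 * U ^ 3 * P := by
      calc U * (2 * (P * Er)) = 2 * (C3 * C4 ^ 2 * 18750) * L ^ 5 *
            (U * (T ^ 2 * U ^ 2 / a ^ 2)) * P := by rw [hEr]; ring
        _ ≤ 2 * (C3 * C4 ^ 2 * 18750) * L ^ 7 * (4 * U ^ 3) * P := by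
            have h5 : L ^ 5 ≤ L ^ 7 := pow_le_pow_right₀ hL (by norm_num)
            gcongr
        _ = _ := by ring
    calc _ ≤ 2 * (49 * L ^ 2 * (C2 * C3 * C1 ^ 2 * 1575 * L ^ 5 * R * P)) +
          8 * (C3 * C4 ^ 2 * 18750) * L ^ 7 * U ^ 3 * P := by gcongr
      _ = 2 * 49 * (C2 * C3 * C1 ^ 2 * 1575) * L ^ 7 * R * P +
          8 * (C3 * C4 ^ 2 * 18750) * L ^ 7 * U ^ 3 * P := by ring
      _ ≤ 2 * 49 * (C2 * C3 * C1 ^ 2 * 1575) * L ^ 7 * (R + U ^ 3) * P +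
          8 * (C3 * C4 ^ 2 * 18750) * L ^ 7 * (R + U ^ 3) * P := by
            have e1 : R ≤ R + U ^ 3 := by linarith
            have e2 : U ^ 3 ≤ R + U ^ 3 := by linarith
            gcongr
      _ = _ := by ring
  by_cases hint : IntervalIntegrable (fun c => ‖∫ t in a..T, F t * HH N X (t + c)‖ ^ 2) volume 0 U
  · have hc2 : Continuous fun c => 2 * ‖∑ p ∈ S, z p * ee c p‖ ^ 2 := by
      refine continuous_const.mul ((Continuous.norm ?_).pow 2)
      exact continuous_finset_sum _ fun p _ => continuous_const.mul (ee_cont p)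
    calc ∫ c in (0 : ℝ)..U, ‖∫ t in a..T, F t * HH N X (t + c)‖ ^ 2
        ≤ ∫ c in (0 : ℝ)..U, (2 * ‖∑ p ∈ S, z p * ee c p‖ ^ 2 + 2 * (P * Er)) := by
          refine intervalIntegral.integral_mono_on hU0 hint ?_ hpt
          exact (hc2.add continuous_const).intervalIntegrable _ _
      _ = 2 * (∫ c in (0 : ℝ)..U, ‖∑ p ∈ S, z p * ee c p‖ ^ 2) + U * (2 * (P * Er)) := by
          rw [intervalIntegral.integral_add (hc2.intervalIntegrable _ _)
            (continuous_const.intervalIntegrable _ _), intervalIntegral.integral_const_mul,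
            intervalIntegral.integral_const, sub_zero, smul_eq_mul]
      _ ≤ 2 * (49 * L ^ 2 * (C2 * C3 * C1 ^ 2 * 1575 * L ^ 5 * (T * (U / N + 1)) * P)) +
          U * (2 * (P * Er)) := by gcongr
      _ ≤ _ := hfin
  · rw [intervalIntegral.integral_undef hint]
    positivity

end

end Pool.Agent.T9h51.HC.K2
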