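import Pool.Agent.T9h29.HC.Spec2

set_option autoImplicit false

/-! Project HC (helper29), second round: the low frequencies (helper51). -/

namespace Pool.Agent.T9h51.HC

open Complex Filter Topology MeasureTheory Set
open Pool.Agent.R304.SG (Z Z_cont)
open Pool.Agent.Y969.GP (ff ht lam FR cr)
open Pool.Agent.N879.PZ (ee HH Wb)
open Pool.Agent.N879.PZ.Khaux (ee_add ee_norm ee_cont cs_int int_mul int_sq int_inv_sq)
open Pool.Agent.T9h29.HC

noncomputable section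

/-- consequences of the conditions on the parameters -/
lemma par2 {T U a : ℝ} {N X : ℕ} (hP : Par2 T U a N) (hX2 : (X : ℝ) ≤ 5 * T ^ 2) (hX1 : 1 ≤ X) :
    1 ≤ Real.log T ∧ 1 ≤ a ∧ 1 + Real.log X ≤ 5 * Real.log T ∧ 1 + Real.log N ≤ 2 * Real.log T := by
  obtain ⟨hT, hU1, hU, ha, haT, hN1, hN, hNU⟩ := hP
  have hT0 : 0 < T := by linarith
  have hT1 : 1 ≤ T := by linarith
  have hL : 1 ≤ Real.log T := by
    rw [Real.le_log_iff_exp_le hT0]
    have := Real.exp_one_lt_d9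
    linarith
  have hX4 : (X : ℝ) ≤ T ^ 4 := by
    refine hX2.trans ?_
    have : 5 ≤ T ^ 2 := by nlinarith
    nlinarith [sq_nonneg T]
  have hX0 : (0 : ℝ) < X := by exact_mod_cast hX1
  have hlX : Real.log X ≤ 4 * Real.log T := by
    have := Real.log_le_log hX0 hX4
    rwa [Real.log_pow, Nat.cast_ofNat] at this
  have hN0 : (0 : ℝ) < N := by exact_mod_cast hN1
  have hlN : Real.log N ≤ Real.log T := Real.log_le_log hN0 hN
  exact ⟨hL, by linarith, by linarith, by linarith⟩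

/-- the error from freezing the amplitudes -/
lemma err2 : ∃ C : ℝ, 0 < C ∧ ∀ (T U a : ℝ) (N X : ℕ), Par2 T U a N → 1 ≤ X → (X : ℝ) ≤ 5 * T ^ 2 →
    ∀ S : Finset (ℕ × ℕ), S ⊆ FR X → S ⊆ FR N → ∀ c : ℝ, 0 ≤ c → c ≤ U →
    ∫ t in a..T, ‖∑ p ∈ S, ((((√(ht p))⁻¹ : ℝ) : ℂ) * ee c p) *
        (((√(ht p) * (cr X p (t + c) - cr X p t) : ℝ) : ℂ) * ee t p)‖ ^ 2 ≤
      C * Real.log T ^ 5 * (U ^ 2 / T) := by
  obtain ⟨C3, hC3, hlt⟩ := Pool.Agent.N879.PZ.t_LT
  obtain ⟨-, -, C4, hC4, hcr⟩ := Pool.Agent.Y545.GP.t_CR Pool.Agent.Y587.GP.t_V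
  refine ⟨C3 * C4 ^ 2 * 10000, by positivity, ?_⟩
  intro T U a N X hP hX1 hX2 S hS hSN c hc0 hcU
  obtain ⟨hL, ha1, hlX, hlN⟩ := par2 hP hX2 hX1
  obtain ⟨hT, hU1, hU, ha, haT, hN1, hN, hNU⟩ := hP
  set L := Real.log T with hLd
  have hT0 : 0 < T := by linarith
  have ha0 : 0 < a := by linarith
  have hX1' : (1 : ℝ) ≤ X := by exact_mod_cast hX1
  have hlX0 : 0 ≤ Real.log X := Real.log_nonneg hX1'
  have hN1' : (1 : ℝ) ≤ N := by exact_mod_cast hN1
  have hlN0 : 0 ≤ Real.log N := Real.log_nonneg hN1'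
  set w := C4 * (1 + Real.log X) * U / a with hw
  have hw0 : 0 ≤ w := by positivity
  have hht : ∀ p ∈ S, 0 < ht p := by
    intro p hp
    have := Pool.Agent.Y545.GP.mem_FR.1 (hS hp)
    exact Pool.Agent.Y545.GP.ht_pos this.1 this.2.1
  have hsq : ∀ p ∈ S, √(ht p) * (√(ht p))⁻¹ = 1 := fun p hp =>
    mul_inv_cancel₀ (Real.sqrt_pos.2 (hht p hp)).ne'
  have key := (hlt N a T w S (fun p t => ((√(ht p) * (cr X p (t + c) - cr X p t) : ℝ) : ℂ))
    (fun p t => ((√(ht p) * (deriv (cr X p) (t + c) - deriv (cr X p) t) : ℝ) : ℂ)) hN1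
    (by linarith) ha0.le haT hw0 hSN ?_ ?_ ?_ ?_).1 (fun p => (((√(ht p))⁻¹ : ℝ) : ℂ) * ee c p)
  · refine key.trans ?_
    have h5 : ∑ p ∈ S, ‖(((√(ht p))⁻¹ : ℝ) : ℂ) * ee c p‖ ^ 2 ≤ (1 + Real.log X) ^ 2 := by
      refine le_trans ?_ (Pool.Agent.N879.GD.sum_FR_le X)
      refine le_trans (Finset.sum_le_sum_of_subset_of_nonneg hS fun p _ _ => by positivity) ?_
      refine Finset.sum_le_sum fun p hp => le_of_eq ?_
      have h6 := Pool.Agent.Y545.GP.mem_FR.1 hp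
      have h7 := Pool.Agent.Y545.GP.ht_pos h6.1 h6.2.1
      rw [norm_mul, ee_norm, mul_one, Complex.norm_real, Real.norm_eq_abs, sq_abs, inv_pow,
        Real.sq_sqrt h7.le]
    have hTN : T + N ≤ 2 * T := by linarith
    have hwT : w ≤ C4 * (5 * L) * U / (T / 2) := by
      rw [hw]
      have : 0 < T / 2 := by linarith
      gcongr
    have hw2 : w ^ 2 ≤ C4 ^ 2 * (100 * L ^ 2) * (U ^ 2 / T ^ 2) := by
      calc w ^ 2 ≤ (C4 * (5 * L) * U / (T / 2)) ^ 2 := pow_le_pow_left₀ hw0 hwT 2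
        _ = C4 ^ 2 * (100 * L ^ 2) * (U ^ 2 / T ^ 2) := by
          field_simp
          ring
    calc C3 * ((T + N) * (1 + Real.log N)) * w ^ 2 *
          ∑ p ∈ S, ‖(((√(ht p))⁻¹ : ℝ) : ℂ) * ee c p‖ ^ 2
        ≤ C3 * ((2 * T) * (2 * L)) * (C4 ^ 2 * (100 * L ^ 2) * (U ^ 2 / T ^ 2)) *
            (1 + Real.log X) ^ 2 := by gcongr
      _ ≤ C3 * ((2 * T) * (2 * L)) * (C4 ^ 2 * (100 * L ^ 2) * (U ^ 2 / T ^ 2)) *
            (5 * L) ^ 2 := by gcongr
      _ = C3 * C4 ^ 2 * 10000 * L ^ 5 * (U ^ 2 / T) := by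
          field_simp
          ring
  · intro p hp x hx
    have hx0 : 0 < x := by linarith [hx.1]
    have h6 := (hcr X p (hS hp) (x + c) (by linarith)).1.hasDerivAt.comp_add_const x c
    have h7 := (hcr X p (hS hp) x hx0).1.hasDerivAt
    exact ((h6.sub h7).const_mul _).ofReal_comp
  · intro p hp
    refine continuous_ofReal.comp_continuousOn ?_
    refine continuousOn_const.mul (ContinuousOn.sub ?_ ?_)
    · intro x hx
      have h6 : ContinuousAt (deriv (cr X p)) (x + c) :=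
        (hcr X p (hS hp) (x + c) (by linarith [hx.1])).2.1.continuousAt
      exact (ContinuousAt.comp' (f := fun x : ℝ => x + c) h6 (by fun_prop)).continuousWithinAt
    · intro x hx
      exact (hcr X p (hS hp) x (by linarith [hx.1])).2.1.continuousAt.continuousWithinAt
  · intro p hp x hx
    have hs0 : 0 < √(ht p) := Real.sqrt_pos.2 (hht p hp)
    have h6 := Convex.norm_image_sub_le_of_norm_deriv_le (f := cr X p) (s := Ici a)
      (C := C4 * (1 + Real.log X) * (√(ht p))⁻¹ / a) (x := x) (y := x + c)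
      (fun s hs => (hcr X p (hS hp) s (lt_of_lt_of_le ha0 hs)).1) (fun s hs => by
        have hs0' : 0 < s := lt_of_lt_of_le ha0 hs
        have h7 := (hcr X p (hS hp) s hs0').2.2.2.2.1
        rw [abs_mul, abs_of_pos hs0'] at h7
        rw [Real.norm_eq_abs, le_div_iff₀ ha0]
        have hs1 : a ≤ s := hs
        nlinarith [abs_nonneg (deriv (cr X p) s)]) (convex_Ici a) hx.1
      (by change a ≤ x + c; linarith [hx.1])
    rw [add_sub_cancel_left, Real.norm_eq_abs, Real.norm_eq_abs, abs_of_nonneg hc0] at h6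
    rw [Complex.norm_real, Real.norm_eq_abs, abs_mul, abs_of_pos hs0]
    calc √(ht p) * |cr X p (x + c) - cr X p x|
        ≤ √(ht p) * (C4 * (1 + Real.log X) * (√(ht p))⁻¹ / a * c) := by gcongr
      _ = √(ht p) * (√(ht p))⁻¹ * (C4 * (1 + Real.log X) * c / a) := by ring
      _ = C4 * (1 + Real.log X) * c / a := by rw [hsq p hp, one_mul]
      _ ≤ w := by rw [hw]; gcongr
  · intro p hp
    have hs0 : 0 < √(ht p) := Real.sqrt_pos.2 (hht p hp)
    have h5 : ∀ x ∈ Icc a T, ‖((√(ht p) * (deriv (cr X p) (x + c) - deriv (cr X p) x) : ℝ) : ℂ)‖ ≤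
        C4 * (1 + Real.log X) * c * (x ^ 2)⁻¹ := by
      intro x hx
      have hx0 : 0 < x := by linarith [hx.1]
      have h6 := Convex.norm_image_sub_le_of_norm_deriv_le (f := deriv (cr X p)) (s := Ici x)
        (C := C4 * (1 + Real.log X) * (√(ht p))⁻¹ / x ^ 2) (x := x) (y := x + c)
        (fun s hs => (hcr X p (hS hp) s (lt_of_lt_of_le hx0 hs)).2.1) (fun s hs => by
          have hs0' : 0 < s := lt_of_lt_of_le hx0 hs
          have h7 := (hcr X p (hS hp) s hs0').2.2.2.2.2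
          rw [abs_mul, abs_of_pos (by positivity : (0 : ℝ) < s ^ 2)] at h7
          rw [Real.norm_eq_abs, le_div_iff₀ (by positivity)]
          have hs1 : x ≤ s := hs
          have hs2 : x ^ 2 ≤ s ^ 2 := pow_le_pow_left₀ hx0.le hs1 2
          nlinarith [abs_nonneg (deriv (deriv (cr X p)) s)]) (convex_Ici x) self_mem_Ici
        (by change x ≤ x + c; linarith)
      rw [add_sub_cancel_left, Real.norm_eq_abs, Real.norm_eq_abs, abs_of_nonneg hc0] at h6
      rw [Complex.norm_real, Real.norm_eq_abs, abs_mul, abs_of_pos hs0]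
      calc √(ht p) * |deriv (cr X p) (x + c) - deriv (cr X p) x|
          ≤ √(ht p) * (C4 * (1 + Real.log X) * (√(ht p))⁻¹ / x ^ 2 * c) := by gcongr
        _ = √(ht p) * (√(ht p))⁻¹ * (C4 * (1 + Real.log X) * c * (x ^ 2)⁻¹) := by ring
        _ = C4 * (1 + Real.log X) * c * (x ^ 2)⁻¹ := by rw [hsq p hp, one_mul]
    have hcont : ContinuousOn (fun x =>
        ‖((√(ht p) * (deriv (cr X p) (x + c) - deriv (cr X p) x) : ℝ) : ℂ)‖) (Icc a T) := by
      refine (continuous_ofReal.comp_continuousOn ?_).norm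
      refine continuousOn_const.mul (ContinuousOn.sub ?_ ?_)
      · intro x hx
        have h6 : ContinuousAt (deriv (cr X p)) (x + c) :=
          (hcr X p (hS hp) (x + c) (by linarith [hx.1])).2.1.continuousAt
        exact (ContinuousAt.comp' (f := fun x : ℝ => x + c) h6 (by fun_prop)).continuousWithinAt
      · intro x hx
        exact (hcr X p (hS hp) x (by linarith [hx.1])).2.1.continuousAt.continuousWithinAt
    have hinv : ContinuousOn (fun x : ℝ => (x ^ 2)⁻¹) (Icc a T) := by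
      refine ContinuousOn.inv₀ (by fun_prop) fun x hx => pow_ne_zero 2 ?_
      linarith [hx.1]
    calc ∫ x in a..T, ‖((√(ht p) * (deriv (cr X p) (x + c) - deriv (cr X p) x) : ℝ) : ℂ)‖
        ≤ ∫ x in a..T, C4 * (1 + Real.log X) * c * (x ^ 2)⁻¹ := by
          refine intervalIntegral.integral_mono_on haT ?_ ?_ h5
          · exact hcont.intervalIntegrable_of_Icc haT
          · exact (hinv.const_smul (C4 * (1 + Real.log X) * c)).intervalIntegrable_of_Icc haT
      _ = C4 * (1 + Real.log X) * c * ∫ x in a..T, (x ^ 2)⁻¹ := by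
          rw [intervalIntegral.integral_const_mul]
      _ ≤ C4 * (1 + Real.log X) * U * a⁻¹ := by
          have h8 := int_inv_sq ha0 haT
          have h9 : 0 ≤ ∫ x in a..T, (x ^ 2)⁻¹ :=
            intervalIntegral.integral_nonneg haT fun t _ => by positivity
          gcongr
      _ = w := by rw [hw]; ring

/-- the second moment of `Z` -/
lemma mom2 : ∃ (C : ℝ) (A : ℕ), 0 < C ∧ ∀ a T : ℝ, 3 ≤ T → 0 ≤ a → a ≤ T →
    ∫ t in a..T, ‖Z t‖ ^ 2 ≤ C * T * Real.log T ^ A := by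
  obtain ⟨C4, A4, hC4, h4⟩ := Pool.Agent.N879.PZ.t_M4L Pool.Agent.N879.PZ.t_AFX Pool.Agent.N879.PZ.t_CRD
    Pool.Agent.N879.PZ.t_LT
  refine ⟨1 + C4, A4, by positivity, fun a T hT ha0 haT => ?_⟩
  have hffr : Continuous ff := Pool.Agent.N879.PZ.M4laux.ff_cont
  have hZc := Z_cont
  have hL1 : 1 ≤ Real.log T := Pool.Agent.N879.PZ.Keraux.log_ge hT
  have hi2 : ∀ x y : ℝ, IntervalIntegrable (fun t => ff t ^ 2) volume x y := fun x y =>
    (hffr.pow 2).intervalIntegrable _ _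
  calc ∫ t in a..T, ‖Z t‖ ^ 2 ≤ ∫ t in a..T, (1 + ff t ^ 2) := by
        refine intervalIntegral.integral_mono_on haT ((hZc.norm.pow 2).intervalIntegrable _ _)
          ((continuous_const.add (hffr.pow 2)).intervalIntegrable _ _) fun t _ => ?_
        rw [Z_norm_sq]
        nlinarith [sq_nonneg (ff t - 1)]
    _ = (T - a) + ∫ t in a..T, ff t ^ 2 := by
        rw [intervalIntegral.integral_add (continuous_const.intervalIntegrable _ _) (hi2 _ _)]
        simp
    _ ≤ T + ∫ t in (0 : ℝ)..T, ff t ^ 2 := by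
        have h3 : ∫ t in a..T, ff t ^ 2 ≤ ∫ t in (0 : ℝ)..T, ff t ^ 2 := by
          refine intervalIntegral.integral_mono_interval ha0 haT le_rfl ?_ (hi2 _ _)
          exact Eventually.of_forall fun t => sq_nonneg _
        linarith
    _ ≤ T + C4 * T * Real.log T ^ A4 := by
        have := h4 T hT
        linarith
    _ ≤ _ := by
        have h5 : 1 ≤ Real.log T ^ A4 := one_le_pow₀ hL1
        nlinarith [mul_le_mul_of_nonneg_left h5 (by linarith : (0 : ℝ) ≤ T)]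

theorem low (hLB : S_LB) : S_LOW := by
  classical
  obtain ⟨CB, AB, hCB, hB⟩ := hLB
  obtain ⟨C2, hC2, hlc⟩ := Pool.Agent.N879.PZ.t_LC
  obtain ⟨CE, hCE, herr⟩ := err2
  obtain ⟨CM, AM, hCM, hM⟩ := mom2
  obtain ⟨-, -, C4, hC4, hcr⟩ := Pool.Agent.Y545.GP.t_CR Pool.Agent.Y587.GP.t_V
  refine ⟨64 * (C2 * CB ^ 2) + 2 * (CM * CE), 2 * AB + 2 + AM + 5, by positivity, ?_⟩
  intro T U a N X hP hXlo hXhi
  have hP' := hP
  have hX1 : 1 ≤ X := by
    have h4 : (1 : ℝ) ≤ X := by nlinarith [hP.1]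
    exact_mod_cast h4
  obtain ⟨hL, ha1, hlX, hlN⟩ := par2 hP hXhi hX1
  obtain ⟨hT, hU1, hU, ha, haT, hN1, hN, hNU⟩ := hP
  set L := Real.log T with hLd
  have hT0 : 0 < T := by linarith
  have hT1 : 1 ≤ T := by linarith
  have ha0 : 0 < a := by linarith
  have hU0 : 0 ≤ U := by linarith
  have hN1' : (1 : ℝ) ≤ N := by exact_mod_cast hN1
  have hlN0 : 0 ≤ Real.log N := Real.log_nonneg hN1'
  have hF : Wb a T Z := by
    refine ⟨Z_cont.measurable, ?_⟩
    obtain ⟨M, hM'⟩ := isCompact_Icc.exists_bound_of_continuousOn (s := Icc a T) Z_cont.continuousOn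
    exact ⟨M, hM'⟩
  set S := (FR X).filter (fun p => ¬ (N : ℝ) < ht p) with hS
  have hSX : S ⊆ FR X := Finset.filter_subset _ _
  have hSN : S ⊆ FR N := by
    intro p hp
    rw [hS, Finset.mem_filter] at hp
    have h1 := Pool.Agent.Y545.GP.mem_FR.1 hp.1
    have h2 : p.1 * p.2 ≤ N := by
      have h3 := not_lt.1 hp.2
      unfold ht at h3
      exact_mod_cast h3
    exact Pool.Agent.N879.PZ.M4laux.mem_FR_of h1.1 h1.2.1 h2 h1.2.2.2
  set P := ∫ t in a..T, ‖Z t‖ ^ 2 with hPd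
  have hP0 : 0 ≤ P := intervalIntegral.integral_nonneg haT fun t _ => by positivity
  have hPM : P ≤ CM * T * L ^ AM := hM a T hT ha0.le haT
  set z : ℕ × ℕ → ℂ := fun p => ∫ t in a..T, Z t * (((cr X p t : ℝ) : ℂ) * ee t p) with hz
  set Er := CE * L ^ 5 * (U ^ 2 / T) with hEr
  have hEr0 : 0 ≤ Er := by positivity
  have hcrc : ∀ p ∈ S, ∀ b : ℝ, 0 ≤ b → ContinuousOn (fun t => cr X p (t + b)) (Icc a T) := by
    intro p hp b hb x hx
    have h6 : ContinuousAt (cr X p) (x + b) :=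
      (hcr X p (hSX hp) (x + b) (by linarith [hx.1])).1.continuousAt
    exact (ContinuousAt.comp' (f := fun x : ℝ => x + b) h6 (by fun_prop)).continuousWithinAt
  -- the pointwise bound
  have hpt : ∀ c ∈ Icc 0 U, ‖∫ t in a..T, Z t * LO N X (t + c)‖ ^ 2 ≤
      2 * ‖∑ p ∈ S, z p * ee c p‖ ^ 2 + 2 * (P * Er) := by
    intro c hc
    set E : ℝ → ℂ := fun t => ∑ p ∈ S, ((((√(ht p))⁻¹ : ℝ) : ℂ) * ee c p) *
        (((√(ht p) * (cr X p (t + c) - cr X p t) : ℝ) : ℂ) * ee t p) with hE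
    have hEc : ContinuousOn E (Icc a T) := by
      refine continuousOn_finsetSum _ fun p hp => ?_
      refine continuousOn_const.mul (ContinuousOn.mul ?_ (ee_cont p).continuousOn)
      refine continuous_ofReal.comp_continuousOn ?_
      refine continuousOn_const.mul (ContinuousOn.sub (hcrc p hp c hc.1) ?_)
      have := hcrc p hp 0 le_rfl
      simpa using this
    have hGc : ∀ p ∈ S, ContinuousOn (fun t => ((cr X p t : ℝ) : ℂ) * ee t p) (Icc a T) := by
      intro p hp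
      refine ContinuousOn.mul ?_ (ee_cont p).continuousOn
      refine continuous_ofReal.comp_continuousOn ?_
      have := hcrc p hp 0 le_rfl
      simpa using this
    have h4 : ∀ t, LO N X (t + c) = (∑ p ∈ S, (((cr X p t : ℝ) : ℂ) * ee t p) * ee c p) + E t := by
      intro t
      rw [hE]
      simp only
      rw [← Finset.sum_add_distrib]
      unfold LO
      refine Finset.sum_congr rfl fun p hp => ?_
      have h5 := Pool.Agent.Y545.GP.mem_FR.1 (hSX hp)
      have h6 := Real.sqrt_pos.2 (Pool.Agent.Y545.GP.ht_pos h5.1 h5.2.1)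
      have h7 : ((√(ht p) : ℝ) : ℂ) ≠ 0 := by exact_mod_cast h6.ne'
      rw [ee_add]
      push_cast
      field_simp
      ring
    have hFG : ∀ p ∈ S, IntervalIntegrable (fun t => Z t * (((cr X p t : ℝ) : ℂ) * ee t p) * ee c p)
        volume a T := fun p hp => (int_mul haT hF (hGc p hp)).mul_const _
    have h5 : ∫ t in a..T, Z t * LO N X (t + c) =
        (∑ p ∈ S, z p * ee c p) + ∫ t in a..T, Z t * E t := by
      have e1 : ∀ t, Z t * LO N X (t + c) =
          (∑ p ∈ S, Z t * (((cr X p t : ℝ) : ℂ) * ee t p) * ee c p) + Z t * E t := by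
        intro t
        rw [h4, mul_add, Finset.mul_sum]
        congr 1
        refine Finset.sum_congr rfl fun p _ => ?_
        ring
      simp only [e1]
      have hsum : IntervalIntegrable (fun t => ∑ p ∈ S, Z t * (((cr X p t : ℝ) : ℂ) * ee t p) *
          ee c p) volume a T := by
        have e2 : (fun t => ∑ p ∈ S, Z t * (((cr X p t : ℝ) : ℂ) * ee t p) * ee c p) =
            ∑ p ∈ S, fun t => Z t * (((cr X p t : ℝ) : ℂ) * ee t p) * ee c p := by
          funext t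
          rw [Finset.sum_apply]
        rw [e2]
        exact IntervalIntegrable.sum S hFG
      rw [intervalIntegral.integral_add hsum (int_mul haT hF hEc),
        intervalIntegral.integral_finset_sum hFG]
      congr 1
      refine Finset.sum_congr rfl fun p _ => ?_
      rw [intervalIntegral.integral_mul_const]
    have h6 : ‖∫ t in a..T, Z t * E t‖ ^ 2 ≤ P * Er := by
      have hE2 : IntervalIntegrable (fun t => ‖E t‖ ^ 2) volume a T :=
        (hEc.norm.pow 2).intervalIntegrable_of_Icc haT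
      have hFE : IntervalIntegrable (fun t => ‖Z t‖ * ‖E t‖) volume a T := by
        have := (int_mul haT hF hEc).norm
        simpa only [norm_mul] using this
      refine (cs_int haT (int_sq haT hF) hE2 hFE).trans ?_
      refine mul_le_mul_of_nonneg_left ?_ hP0
      exact herr T U a N X hP' hX1 hXhi S hSX hSN c hc.1 hc.2
    rw [h5]
    set x1 := ∑ p ∈ S, z p * ee c p
    set x2 := ∫ t in a..T, Z t * E t
    have h7 : ‖x1 + x2‖ ^ 2 ≤ 2 * ‖x1‖ ^ 2 + 2 * ‖x2‖ ^ 2 := by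
      have h8 := norm_add_le x1 x2
      have h9 := pow_le_pow_left₀ (norm_nonneg _) h8 2
      nlinarith [sq_nonneg (‖x1‖ - ‖x2‖)]
    linarith
  -- the coefficients
  have hTq : √T ≤ T ^ (3 / 4 : ℝ) := by
    rw [Real.sqrt_eq_rpow]
    exact Real.rpow_le_rpow_of_exponent_le hT1 (by norm_num)
  have hT32 : (T ^ (3 / 4 : ℝ)) ^ 2 = T ^ (3 / 2 : ℝ) := by
    rw [← Real.rpow_natCast, ← Real.rpow_mul hT0.le]
    norm_num
  have hTq0 : 0 < T ^ (3 / 4 : ℝ) := Real.rpow_pos_of_pos hT0 _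
  have hzb : ∀ p ∈ S, ‖z p‖ ^ 2 ≤ 4 * CB ^ 2 * L ^ (2 * AB) * T ^ (3 / 2 : ℝ) * (ht p)⁻¹ := by
    intro p hp
    have h1 := hB T a X p hT ha haT hXlo hXhi (hSX hp)
    have h6 := Pool.Agent.Y545.GP.mem_FR.1 (hSX hp)
    have h7 := Pool.Agent.Y545.GP.ht_pos h6.1 h6.2.1
    have h8 : Real.exp (-(|lam p| / 2)) ≤ 1 := by
      rw [Real.exp_le_one_iff]
      have := abs_nonneg (lam p)
      linarith
    have h9 : ‖z p‖ ≤ CB * L ^ AB * (√(ht p))⁻¹ * (2 * T ^ (3 / 4 : ℝ)) := by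
      refine h1.trans ?_
      have h10 : T ^ (3 / 4 : ℝ) * Real.exp (-(|lam p| / 2)) + √T ≤ 2 * T ^ (3 / 4 : ℝ) := by
        nlinarith
      gcongr
    calc ‖z p‖ ^ 2 ≤ (CB * L ^ AB * (√(ht p))⁻¹ * (2 * T ^ (3 / 4 : ℝ))) ^ 2 :=
          pow_le_pow_left₀ (norm_nonneg _) h9 2
      _ = _ := by
          rw [mul_pow, mul_pow, mul_pow, mul_pow, hT32, inv_pow, Real.sq_sqrt h7.le, ← pow_mul,
            mul_comm AB 2]
          ring
  have hzs : ∑ p ∈ S, ‖z p‖ ^ 2 ≤ 16 * CB ^ 2 * L ^ (2 * AB + 2) * T ^ (3 / 2 : ℝ) := by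
    have hT320 : 0 < T ^ (3 / 2 : ℝ) := Real.rpow_pos_of_pos hT0 _
    have hs : ∑ p ∈ S, (ht p)⁻¹ ≤ (1 + Real.log N) ^ 2 := by
      refine le_trans ?_ (Pool.Agent.N879.GD.sum_FR_le N)
      refine Finset.sum_le_sum_of_subset_of_nonneg hSN fun p _ _ => ?_
      unfold ht
      positivity
    calc ∑ p ∈ S, ‖z p‖ ^ 2 ≤ ∑ p ∈ S, 4 * CB ^ 2 * L ^ (2 * AB) * T ^ (3 / 2 : ℝ) * (ht p)⁻¹ :=
          Finset.sum_le_sum hzb
      _ = 4 * CB ^ 2 * L ^ (2 * AB) * T ^ (3 / 2 : ℝ) * ∑ p ∈ S, (ht p)⁻¹ := by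
          rw [Finset.mul_sum]
      _ ≤ 4 * CB ^ 2 * L ^ (2 * AB) * T ^ (3 / 2 : ℝ) * (1 + Real.log N) ^ 2 := by gcongr
      _ ≤ 4 * CB ^ 2 * L ^ (2 * AB) * T ^ (3 / 2 : ℝ) * (2 * L) ^ 2 := by gcongr
      _ = _ := by
          rw [pow_add]
          ring
  have hlow : ∫ c in (0 : ℝ)..U, ‖∑ p ∈ S, z p * ee c p‖ ^ 2 ≤
      32 * (C2 * CB ^ 2) * L ^ (2 * AB + 2) * (U * T ^ (3 / 2 : ℝ)) := by
    have hT320 : 0 < T ^ (3 / 2 : ℝ) := Real.rpow_pos_of_pos hT0 _
    calc ∫ c in (0 : ℝ)..U, ‖∑ p ∈ S, z p * ee c p‖ ^ 2 ≤ C2 * (U + N) * ∑ p ∈ S, ‖z p‖ ^ 2 :=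
          hlc N U S z hN1 hU1 hSN
      _ ≤ C2 * (2 * U) * (16 * CB ^ 2 * L ^ (2 * AB + 2) * T ^ (3 / 2 : ℝ)) := by
          have : U + N ≤ 2 * U := by linarith
          gcongr
      _ = _ := by ring
  have hPE : U * (2 * (P * Er)) ≤ 2 * (CM * CE) * L ^ (AM + 5) * U ^ 3 := by
    calc U * (2 * (P * Er)) ≤ U * (2 * ((CM * T * L ^ AM) * Er)) := by gcongr
      _ = 2 * (CM * CE) * L ^ (AM + 5) * U ^ 3 := by
          rw [hEr, pow_add]
          field_simp
  have hfin : 2 * (32 * (C2 * CB ^ 2) * L ^ (2 * AB + 2) * (U * T ^ (3 / 2 : ℝ))) +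
      2 * (CM * CE) * L ^ (AM + 5) * U ^ 3 ≤ (64 * (C2 * CB ^ 2) + 2 * (CM * CE)) *
        L ^ (2 * AB + 2 + AM + 5) * (U * T ^ (3 / 2 : ℝ) + U ^ 3) := by
    have hT320 : 0 < T ^ (3 / 2 : ℝ) := Real.rpow_pos_of_pos hT0 _
    obtain ⟨V, hV⟩ : ∃ V : ℝ, V = L ^ (2 * AB + 2 + AM + 5) := ⟨_, rfl⟩
    have q1 : L ^ (2 * AB + 2) ≤ V := by rw [hV]; exact pow_le_pow_right₀ hL (by omega)
    have q2 : L ^ (AM + 5) ≤ V := by rw [hV]; exact pow_le_pow_right₀ hL (by omega)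
    have hV0 : 0 ≤ V := by rw [hV]; positivity
    rw [← hV]
    obtain ⟨R, hR⟩ : ∃ R : ℝ, R = U * T ^ (3 / 2 : ℝ) := ⟨_, rfl⟩
    have hR0 : 0 ≤ R := by rw [hR]; positivity
    have hU3 : 0 ≤ U ^ 3 := by positivity
    rw [← hR]
    calc 2 * (32 * (C2 * CB ^ 2) * L ^ (2 * AB + 2) * R) + 2 * (CM * CE) * L ^ (AM + 5) * U ^ 3
        ≤ 2 * (32 * (C2 * CB ^ 2) * V * R) + 2 * (CM * CE) * V * U ^ 3 := by gcongr
      _ ≤ 2 * (32 * (C2 * CB ^ 2) * V * (R + U ^ 3)) + 2 * (CM * CE) * V * (R + U ^ 3) := by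
          have e1 : R ≤ R + U ^ 3 := by linarith
          have e2 : U ^ 3 ≤ R + U ^ 3 := by linarith
          gcongr
      _ = _ := by ring
  by_cases hint : IntervalIntegrable (fun c => ‖∫ t in a..T, Z t * LO N X (t + c)‖ ^ 2) volume 0 U
  · have hc2 : Continuous fun c => 2 * ‖∑ p ∈ S, z p * ee c p‖ ^ 2 := by
      refine continuous_const.mul ((Continuous.norm ?_).pow 2)
      exact continuous_finset_sum _ fun p _ => continuous_const.mul (ee_cont p)
    calc ∫ c in (0 : ℝ)..U, ‖∫ t in a..T, Z t * LO N X (t + c)‖ ^ 2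
        ≤ ∫ c in (0 : ℝ)..U, (2 * ‖∑ p ∈ S, z p * ee c p‖ ^ 2 + 2 * (P * Er)) := by
          refine intervalIntegral.integral_mono_on hU0 hint ?_ hpt
          exact (hc2.add continuous_const).intervalIntegrable _ _
      _ = 2 * (∫ c in (0 : ℝ)..U, ‖∑ p ∈ S, z p * ee c p‖ ^ 2) + U * (2 * (P * Er)) := by
          rw [intervalIntegral.integral_add (hc2.intervalIntegrable _ _)
            (continuous_const.intervalIntegrable _ _), intervalIntegral.integral_const_mul,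
            intervalIntegral.integral_const, sub_zero, smul_eq_mul]
      _ ≤ 2 * (32 * (C2 * CB ^ 2) * L ^ (2 * AB + 2) * (U * T ^ (3 / 2 : ℝ))) +
          2 * (CM * CE) * L ^ (AM + 5) * U ^ 3 := by gcongr
      _ ≤ _ := hfin
  · rw [intervalIntegral.integral_undef hint]
    positivity

end

end Pool.Agent.T9h51.HC
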